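import Mathlib
import Pool.Agent.H47.NAssoc

namespace Pool.Agent.Results.MP_0af3ab_al.LeftNotRight

/-- the associative center (nucleus) -/
def nucleus (R : Type) [NonAssocRing R] : Set R :=
  {x | ∀ a b : R, x * a * b = x * (a * b) ∧ a * x * b = a * (x * b) ∧ a * b * x = a * (b * x)}

open Pool.Agent.H47.NAssoc in
theorem result : ∃ (R : Type) (_ : NonAssocRing R),
    (∀ r : R, r ≠ 0 → ∃ x ∈ nucleus R, x * r ∈ nucleus R ∧ x * r ≠ 0) ∧
    ¬ (∀ r : R, r ≠ 0 → ∃ x ∈ nucleus R, r * x ∈ nucleus R ∧ r * x ≠ 0) := by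
  have hn : ∀ x : A, x ∈ nucleus A ↔ x.m = 0 := A.nuc
  refine ⟨A, inferInstance, fun r hr => ?_, fun h => ?_⟩
  · by_cases h : r.m = 0
    · exact ⟨1, (hn _).mpr rfl, by rw [one_mul]; exact (hn _).mpr h, by rwa [one_mul]⟩
    · refine ⟨⟨0, 0, 1, 0⟩, (hn _).mpr rfl, (hn _).mpr (by simp [A.mul_def]), fun h' => h ?_⟩
      simpa [A.mul_def, A.zero_def] using congrArg A.w h'
  · obtain ⟨x, h1, h2, h3⟩ := h ⟨0, 1, 0, 0⟩ (by simp [A.zero_def])
    rw [hn] at h1 h2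
    apply h3
    simp [A.mul_def] at h2
    simp [A.mul_def, A.zero_def, h1, h2]

end Pool.Agent.Results.MP_0af3ab_al.LeftNotRight
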